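import Mathlib
import Pool.Agent.W175.GF.Stm

/-!
# GF-ALG: transitivity of algebraic dependence (project GF of helper175)
-/

set_option autoImplicit false

namespace Pool.Agent.W462.GF

open Polynomial Pool.Agent.W175.GF

section field

variable {K : Type*} [Field K] [Algebra ℂ K]

/-- bivariate dependence in a field -/
def Dp (a b : K) : Prop := ∃ Q : Polynomial (Polynomial ℂ), Q ≠ 0 ∧ aevalAeval a b Q = 0

theorem aevalAeval_eq {A : Type*} [CommRing A] [Algebra ℂ A] (a b : A)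
    (Q : Polynomial (Polynomial ℂ)) :
    aevalAeval a b Q = Q.eval₂ (aeval (R := ℂ) a).toRingHom b := by
  have h : (aevalAeval (R := ℂ) a b : Polynomial (Polynomial ℂ) →ₐ[ℂ] A).toRingHom =
      eval₂RingHom (aeval (R := ℂ) a).toRingHom b := by
    refine Polynomial.ringHom_ext' (RingHom.ext fun p => ?_) ?_
    · simp
    · simp
  exact congrArg (fun f => f Q) h

theorem Dp.symm {a b : K} (h : Dp a b) : Dp b a := by
  obtain ⟨Q, hQ, h0⟩ := h
  refine ⟨Bivariate.swap Q, fun h => hQ ?_, ?_⟩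
  · have := congrArg Bivariate.swap h
    rwa [Bivariate.swap_swap_apply, map_zero] at this
  · rw [Bivariate.aevalAeval_swap]
    exact h0

theorem Dp.alg {a b : K} (ha : Transcendental ℂ a) (h : Dp a b) :
    IsAlgebraic (IntermediateField.adjoin ℂ {a}) b := by
  obtain ⟨Q, hQ, h0⟩ := h
  rw [aevalAeval_eq] at h0
  set g := IntermediateField.AdjoinSimple.gen ℂ a with hg
  set φ : ℂ[X] →+* (IntermediateField.adjoin ℂ {a}) := (aeval (R := ℂ) g).toRingHom with hφ
  have hcomp : (algebraMap (IntermediateField.adjoin ℂ {a}) K).comp φ =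
      (aeval (R := ℂ) a).toRingHom := by
    refine RingHom.ext fun p => ?_
    show algebraMap _ K (aeval g p) = aeval a p
    rw [← aeval_algebraMap_apply]
    rfl
  have hinj : Function.Injective φ := by
    have h1 : Function.Injective ((algebraMap (IntermediateField.adjoin ℂ {a}) K).comp φ) := by
      rw [hcomp]
      exact transcendental_iff_injective.1 ha
    exact Function.Injective.of_comp (f := algebraMap (IntermediateField.adjoin ℂ {a}) K) h1
  refine ⟨Q.map φ, fun h => hQ ((Polynomial.map_eq_zero_iff hinj).1 h), ?_⟩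
  rw [aeval_def, eval₂_map, hcomp]
  exact h0

open scoped IntermediateField.algebraAdjoinAdjoin in
theorem Dp.of_alg {a b : K} (h : IsAlgebraic (IntermediateField.adjoin ℂ {a}) b) : Dp a b := by
  have h1 : IsAlgebraic (Algebra.adjoin ℂ {a}) b :=
    (IsFractionRing.isAlgebraic_iff (Algebra.adjoin ℂ {a}) (IntermediateField.adjoin ℂ {a}) K).2 h
  obtain ⟨P, hP, h0⟩ := h1
  set g : Algebra.adjoin ℂ {a} := ⟨a, Algebra.subset_adjoin rfl⟩ with hg
  set φ : ℂ[X] →+* (Algebra.adjoin ℂ {a}) := (aeval (R := ℂ) g).toRingHom with hφ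
  have hcomp : (algebraMap (Algebra.adjoin ℂ {a}) K).comp φ = (aeval (R := ℂ) a).toRingHom := by
    refine RingHom.ext fun p => ?_
    show algebraMap _ K (aeval g p) = aeval a p
    rw [← aeval_algebraMap_apply]
    rfl
  have hsurj : Function.Surjective φ := by
    rintro ⟨x, hx⟩
    rw [Algebra.adjoin_singleton_eq_range_aeval] at hx
    obtain ⟨p, hp⟩ := hx
    refine ⟨p, Subtype.ext ?_⟩
    have := congrArg (fun f => f p) hcomp
    exact this.trans hp
  obtain ⟨Q, hQ⟩ := Polynomial.map_surjective φ hsurj P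
  refine ⟨Q, fun h => hP (by rw [← hQ, h, Polynomial.map_zero]), ?_⟩
  rw [aevalAeval_eq, ← hcomp, ← eval₂_map, hQ]
  exact h0

theorem Dp.trans {t y f : K} (ht : Transcendental ℂ t) (hy : Transcendental ℂ y)
    (h1 : Dp t y) (h2 : Dp t f) : Dp y f := by
  refine Dp.of_alg ?_
  have ht1 : IsAlgebraic (IntermediateField.adjoin ℂ {y}) t := h1.symm.alg hy
  have hf1 : IsAlgebraic (IntermediateField.adjoin ℂ {t}) f := h2.alg ht
  set E := IntermediateField.adjoin ℂ {y} with hE
  set E' := algebraicClosure E K with hE'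
  have htE : t ∈ E' := mem_algebraicClosure_iff.2 ht1
  have hle : IntermediateField.adjoin ℂ {t} ≤ E'.restrictScalars ℂ := by
    rw [IntermediateField.adjoin_simple_le_iff]
    exact htE
  have hf2 : IsAlgebraic E' f := by
    obtain ⟨P, hP, h0⟩ := hf1
    let i : IntermediateField.adjoin ℂ {t} →+* E' :=
      { toFun := fun x => ⟨x, hle x.2⟩
        map_one' := rfl
        map_mul' := fun _ _ => rfl
        map_zero' := rfl
        map_add' := fun _ _ => rfl }
    refine ⟨P.map i, fun h => hP ((Polynomial.map_eq_zero_iff (RingHom.injective i)).1 h), ?_⟩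
    rw [aeval_def, eval₂_map]
    exact h0
  exact hf2.restrictScalars E

end field

/-! ### the ring of holomorphic functions -/

/-- restrictions of holomorphic functions -/
def Hol (Ω : Set ℂ) : Subalgebra ℂ (Ω → ℂ) where
  carrier := {f | ∃ F : ℂ → ℂ, DifferentiableOn ℂ F Ω ∧ ∀ t : Ω, f t = F t}
  mul_mem' := by
    rintro f g ⟨F, hF, h1⟩ ⟨G, hG, h2⟩
    exact ⟨fun t => F t * G t, hF.mul hG, fun t => by rw [Pi.mul_apply, h1, h2]⟩
  add_mem' := by
    rintro f g ⟨F, hF, h1⟩ ⟨G, hG, h2⟩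
    exact ⟨fun t => F t + G t, hF.add hG, fun t => by rw [Pi.add_apply, h1, h2]⟩
  algebraMap_mem' := fun c => ⟨fun _ => c, differentiableOn_const c, fun _ => rfl⟩

theorem hol_domain (Ω : Set ℂ) (h1 : IsOpen Ω) (h2 : IsPreconnected Ω) (h3 : Ω.Nonempty) :
    IsDomain (Hol Ω) := by
  have : Nontrivial (Hol Ω) := by
    obtain ⟨t, ht⟩ := h3
    refine ⟨0, 1, fun h => ?_⟩
    have := congrFun (congrArg Subtype.val h) ⟨t, ht⟩
    simp at this
  have : NoZeroDivisors (Hol Ω) := by
    constructor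
    rintro ⟨f, F, hF, hf⟩ ⟨g, G, hG, hg⟩ h
    have h4 : ∀ z ∈ Ω, F z * G z = 0 := by
      intro z hz
      have := congrFun (congrArg Subtype.val h) ⟨z, hz⟩
      simpa [hf, hg] using this
    rcases (hF.analyticOnNhd h1).eq_zero_or_eq_zero_of_mul_eq_zero (hG.analyticOnNhd h1) h4 h2 with
      h5 | h5
    · left
      apply Subtype.ext
      funext t
      exact (hf t).trans (h5 t t.2)
    · right
      apply Subtype.ext
      funext t
      exact (hg t).trans (h5 t t.2)
  exact NoZeroDivisors.to_isDomain _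

/-- the element of `Hol` -/
def toHol {Ω : Set ℂ} {F : ℂ → ℂ} (hF : DifferentiableOn ℂ F Ω) : Hol Ω :=
  ⟨fun t => F t, F, hF, fun _ => rfl⟩

/-- evaluation -/
def ev {Ω : Set ℂ} (t : Ω) : Hol Ω →ₐ[ℂ] ℂ :=
  (Pi.evalAlgHom ℂ (fun _ : Ω => ℂ) t).comp (Hol Ω).val

theorem ev_aeval {Ω : Set ℂ} (t : Ω) (a b : Hol Ω) (Q : Polynomial (Polynomial ℂ)) :
    ev t (aevalAeval a b Q) = Q.evalEval (ev t a) (ev t b) := by
  have h : (ev t).comp (aevalAeval (R := ℂ) a b) = aevalAeval (R := ℂ) (ev t a) (ev t b) := by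
    refine Polynomial.algHom_ext' (by ext; simp) (by simp)
  rw [← coe_aevalAeval_eq_evalEval, ← h]
  rfl

theorem algDep_iff {Ω : Set ℂ} {F G : ℂ → ℂ} (hF : DifferentiableOn ℂ F Ω)
    (hG : DifferentiableOn ℂ G Ω) :
    AlgDep Ω F G ↔ ∃ Q : Polynomial (Polynomial ℂ), Q ≠ 0 ∧
      aevalAeval (toHol hF) (toHol hG) Q = 0 := by
  unfold AlgDep
  refine exists_congr fun Q => and_congr_right fun _ => ?_
  constructor
  · intro h
    apply Subtype.ext
    funext t
    have := ev_aeval t (toHol hF) (toHol hG) Q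
    exact this.trans (h t t.2)
  · intro h t ht
    have := ev_aeval ⟨t, ht⟩ (toHol hF) (toHol hG) Q
    rw [h, map_zero] at this
    exact this.symm

theorem transc {Ω : Set ℂ} (h1 : IsOpen Ω) (h2 : IsPreconnected Ω) (h3 : Ω.Nonempty)
    {F : ℂ → ℂ} (hF : DifferentiableOn ℂ F Ω)
    (hc : ∀ v : ℂ, ¬ ∀ t ∈ Ω, F t = v) : Transcendental ℂ (toHol hF) := by
  rintro ⟨p, hp, h0⟩
  have := hol_domain Ω h1 h2 h3
  have h4 : ∀ t ∈ Ω, p.eval (F t) = 0 := by
    intro t ht
    have h5 : ev ⟨t, ht⟩ (aeval (toHol hF) p) = 0 := by rw [h0, map_zero]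
    rw [← aeval_algHom_apply] at h5
    exact h5
  have h5 : Set.MapsTo F Ω (p.roots.toFinset : Set ℂ) := by
    intro t ht
    simp only [Finset.mem_coe, Multiset.mem_toFinset]
    exact (mem_roots hp).2 (h4 t ht)
  obtain ⟨t₀, ht₀⟩ := h3
  refine hc (F t₀) fun t ht => ?_
  obtain ⟨y, _, hy⟩ := h2.eqOn_const_of_mapsTo (p.roots.toFinset.finite_toSet.isDiscrete) hF.continuousOn h5
    ⟨F t₀, h5 ht₀⟩
  exact (hy ht).trans (hy ht₀).symm

theorem alg : S_ALG := by
  intro Ω t₀ y f hΩ hc hne h1 h2 h3 h4 h5 h6 h7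
  have hd := hol_domain Ω hΩ hc hne
  have ht := transc hΩ hc hne h1 h4
  have hy := transc hΩ hc hne h2 h5
  have hinj : Function.Injective (algebraMap (Hol Ω) (FractionRing (Hol Ω))) :=
    IsFractionRing.injective _ _
  have tr : ∀ a : Hol Ω, Transcendental ℂ a →
      Transcendental ℂ (algebraMap (Hol Ω) (FractionRing (Hol Ω)) a) := fun a ha =>
    (transcendental_algebraMap_iff hinj).2 ha
  have key : ∀ (a b : Hol Ω) (Q : Polynomial (Polynomial ℂ)),
      aevalAeval (algebraMap (Hol Ω) (FractionRing (Hol Ω)) a)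
        (algebraMap (Hol Ω) (FractionRing (Hol Ω)) b) Q =
      algebraMap (Hol Ω) (FractionRing (Hol Ω)) (aevalAeval a b Q) := by
    intro a b Q
    rw [aevalAeval_eq, aevalAeval_eq, hom_eval₂]
    congr 1
    refine RingHom.ext fun p => ?_
    exact aeval_algebraMap_apply _ _ _
  rw [algDep_iff h1 h2] at h6
  rw [algDep_iff h1 h3] at h7
  rw [algDep_iff h2 h3]
  obtain ⟨Q, hQ, e⟩ := h6
  obtain ⟨R, hR, e'⟩ := h7
  obtain ⟨P, hP, e''⟩ := Dp.trans (tr _ ht) (tr _ hy) ⟨Q, hQ, by rw [key, e, map_zero]⟩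
    ⟨R, hR, by rw [key, e', map_zero]⟩
  refine ⟨P, hP, ?_⟩
  rw [key] at e''
  exact hinj (by rw [e'', map_zero])

end Pool.Agent.W462.GF
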